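import Pool.Agent.Q161.ESF.Stm8

set_option autoImplicit false

/-!
# Project ESF (helper161), job SPLM: primes of degree one
-/

namespace Pool.Agent.Q68.ESF

open Polynomial NumberField Module

/-- Schur: a nonconstant polynomial has arbitrarily large prime divisors -/
theorem schur (g : ℤ[X]) (hd : 0 < g.natDegree) (B : ℕ) :
    ∃ (p : ℕ) (n : ℤ), B < p ∧ p.Prime ∧ (p : ℤ) ∣ g.eval n := by
  set c : ℤ := g.eval 0 with hc
  rcases eq_or_ne c 0 with h0 | h0
  · obtain ⟨p, hp1, hp2⟩ := Nat.exists_infinite_primes (B + 1)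
    exact ⟨p, 0, hp1, hp2, by rw [← hc, h0]; exact dvd_zero _⟩
  · set Q : ℤ := (B.factorial : ℤ) with hQ
    have hQ0 : Q ≠ 0 := by
      rw [hQ]
      exact_mod_cast B.factorial_ne_zero
    have h1 : g ≠ 0 := by
      rintro rfl
      simp at hd
    have h2 : g - C c ≠ 0 := by
      intro h
      have : (g - C c).natDegree = g.natDegree := natDegree_sub_C
      rw [h, natDegree_zero] at this
      omega
    have h3 : g + C c ≠ 0 := by
      intro h
      have : (g + C c).natDegree = g.natDegree := natDegree_add_C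
      rw [h, natDegree_zero] at this
      omega
    set P : ℤ[X] := g * (g - C c) * (g + C c) with hP
    have hP0 : P ≠ 0 := mul_ne_zero (mul_ne_zero h1 h2) h3
    have hinj : Function.Injective fun t : ℕ => c * Q * (t : ℤ) := by
      intro a b hab
      have := mul_left_cancel₀ (mul_ne_zero h0 hQ0) hab
      exact_mod_cast this
    obtain ⟨n, ⟨t, rfl⟩, hn⟩ := (Set.infinite_range_of_injective hinj).exists_notMem_finset P.roots.toFinset
    rw [Multiset.mem_toFinset, mem_roots hP0, IsRoot.def] at hn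
    simp only at hn
    set n : ℤ := c * Q * (t : ℤ) with hnd
    rw [hP, eval_mul, eval_mul, eval_sub, eval_add, eval_C] at hn
    obtain ⟨k, hk⟩ := sub_dvd_eval_sub n 0 g
    rw [← hc, sub_zero] at hk
    have hgn : g.eval n = c * (1 + Q * (t * k)) := by
      have : g.eval n = c + n * k := by linarith
      rw [this, hnd]
      ring
    set u : ℤ := 1 + Q * (t * k) with hu
    have hu1 : u.natAbs ≠ 1 := by
      intro h
      apply hn
      rw [hgn]
      rcases Int.natAbs_eq u with h4 | h4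
      · rw [h4, h]
        push_cast
        ring
      · rw [h4, h]
        push_cast
        ring
    obtain ⟨p, hp, hpu⟩ := Nat.exists_prime_and_dvd hu1
    have hpu' : (p : ℤ) ∣ u := Int.natCast_dvd.2 hpu
    refine ⟨p, n, ?_, hp, ?_⟩
    · by_contra hle
      push Not at hle
      have h5 : (p : ℤ) ∣ Q := by
        rw [hQ]
        exact_mod_cast hp.dvd_factorial.2 hle
      have h6 : (p : ℤ) ∣ 1 := by
        have := dvd_sub hpu' (Dvd.dvd.mul_right h5 (t * k))
        rwa [hu, add_sub_cancel_right] at this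
      have h7 : (p : ℕ) ∣ 1 := by exact_mod_cast h6
      exact hp.one_lt.ne' (Nat.dvd_one.1 h7)
    · rw [hgn]
      exact Dvd.dvd.mul_left hpu' c

/-- an integral primitive element -/
theorem exists_theta (M : Type) [Field M] [NumberField M] :
    ∃ θ : M, IsIntegral ℤ θ ∧ ∀ x : M, ∃ g : ℚ[X], x = aeval θ g := by
  obtain ⟨α, hα⟩ := Field.exists_primitive_element ℚ M
  have halg : IsAlgebraic ℤ α :=
    (IsFractionRing.isAlgebraic_iff ℤ ℚ M).2 (Algebra.IsAlgebraic.isAlgebraic α)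
  obtain ⟨d, hd, hint⟩ := halg.exists_integral_multiple
  refine ⟨d • α, hint, fun x => ?_⟩
  have hx : x ∈ (IntermediateField.adjoin ℚ {α}).toSubalgebra := by
    rw [hα]
    exact trivial
  rw [IntermediateField.adjoin_simple_toSubalgebra_of_isAlgebraic (Algebra.IsAlgebraic.isAlgebraic α),
    Algebra.adjoin_singleton_eq_range_aeval] at hx
  obtain ⟨g, hg⟩ := hx
  refine ⟨g.comp (C ((d : ℚ)⁻¹) * X), ?_⟩
  rw [aeval_comp]
  have h1 : aeval (d • α) (C ((d : ℚ)⁻¹) * X : ℚ[X]) = α := by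
    have hd' : (d : M) ≠ 0 := by exact_mod_cast hd
    rw [map_mul, aeval_C, aeval_X, zsmul_eq_mul, map_inv₀, map_intCast, inv_mul_cancel_left₀ hd']
  rw [h1]
  exact hg.symm

lemma exists_den (K : Type) [Field K] [NumberField K] (θ : K)
    (hgen : ∀ x : K, ∃ g : ℚ[X], x = aeval θ g) (x : K) :
    ∃ m : ℤ, m ≠ 0 ∧ ∃ g : ℤ[X], (m : K) * x = aeval θ g := by
  obtain ⟨g0, hg0⟩ := hgen x
  obtain ⟨b, hb, h⟩ := IsLocalization.integerNormalization_spec (nonZeroDivisors ℤ) g0
  refine ⟨b, nonZeroDivisors.ne_zero hb, IsLocalization.integerNormalization (nonZeroDivisors ℤ) g0, ?_⟩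
  have h1 : aeval θ (IsLocalization.integerNormalization (nonZeroDivisors ℤ) g0) =
      aeval θ ((IsLocalization.integerNormalization (nonZeroDivisors ℤ) g0).map (algebraMap ℤ ℚ)) := by
    rw [aeval_map_algebraMap]
  rw [h1, h, hg0]
  rw [show (b • g0 : ℚ[X]) = C (b : ℚ) * g0 by
    rw [← Polynomial.smul_eq_C_mul]; ext n; simp]
  rw [map_mul, aeval_C]
  simp

lemma exists_index (K : Type) [Field K] [NumberField K] (θ : K)
    (hgen : ∀ x : K, ∃ g : ℚ[X], x = aeval θ g) :
    ∃ m : ℤ, m ≠ 0 ∧ ∀ α : 𝓞 K, ∃ g : ℤ[X], (m : K) * (α : K) = aeval θ g := by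
  classical
  have h1 := fun i => exists_den K θ hgen ((RingOfIntegers.basis K i : 𝓞 K) : K)
  choose m hm g hg using h1
  refine ⟨∏ i, m i, Finset.prod_ne_zero_iff.2 fun i _ => hm i, fun α => ?_⟩
  refine ⟨∑ i, C ((RingOfIntegers.basis K).repr α i * ∏ j ∈ Finset.univ.erase i, m j) * g i, ?_⟩
  have h2 : (α : K) = ∑ i, (((RingOfIntegers.basis K).repr α i : ℤ) : K) *
      ((RingOfIntegers.basis K i : 𝓞 K) : K) := by
    conv_lhs => rw [← (RingOfIntegers.basis K).sum_repr α]
    change algebraMap (𝓞 K) K (∑ i, (RingOfIntegers.basis K).repr α i • RingOfIntegers.basis K i) = _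
    rw [map_sum]
    apply Finset.sum_congr rfl
    intro i _
    rw [zsmul_eq_mul, map_mul, map_intCast]
  rw [h2, Finset.mul_sum, map_sum]
  apply Finset.sum_congr rfl
  intro i _
  rw [map_mul, ← hg i, aeval_C]
  have h3 : (∏ j, m j) = m i * ∏ j ∈ Finset.univ.erase i, m j :=
    (Finset.mul_prod_erase _ _ (Finset.mem_univ i)).symm
  rw [h3]
  simp only [algebraMap_int_eq, eq_intCast]
  push_cast
  ring

theorem hom_of_root (K : Type) [Field K] [NumberField K] (θ : K) (hint : IsIntegral ℤ θ)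
    (hgen : ∀ x : K, ∃ g : ℚ[X], x = aeval θ g) :
    ∃ m : ℤ, m ≠ 0 ∧ ∀ p : ℕ, p.Prime → ¬ (p : ℤ) ∣ m → ∀ a : ZMod p,
      ((minpoly ℤ θ).map (Int.castRingHom (ZMod p))).eval a = 0 → Nonempty (𝓞 K →+* ZMod p) := by
  obtain ⟨m, hm, hidx⟩ := exists_index K θ hgen
  refine ⟨m, hm, fun p hp hpm a ha => ?_⟩
  have : Fact p.Prime := ⟨hp⟩
  choose g hg using hidx
  set ev : ℤ[X] →+* ZMod p := eval₂RingHom (Int.castRingHom (ZMod p)) a with hev
  have hevf : ev (minpoly ℤ θ) = 0 := by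
    rw [hev, coe_eval₂RingHom, ← eval_map]; exact ha
  have key : ∀ h1 h2 : ℤ[X], aeval θ h1 = aeval θ h2 → ev h1 = ev h2 := by
    intro h1 h2 h
    obtain ⟨r, hr⟩ := minpoly.isIntegrallyClosed_dvd hint (p := h1 - h2) (by rw [map_sub, h, sub_self])
    have h3 : ev (h1 - h2) = 0 := by rw [hr, map_mul, hevf, zero_mul]
    rw [map_sub] at h3
    exact sub_eq_zero.1 h3
  have hm0 : (m : ZMod p) ≠ 0 := by
    rw [Ne, ZMod.intCast_zmod_eq_zero_iff_dvd]; exact hpm
  have hevC : ∀ c : ℤ, ev (C c) = (c : ZMod p) := by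
    intro c; rw [hev, coe_eval₂RingHom, eval₂_C]; rfl
  have hone : ev (g 1) = (m : ZMod p) := by
    rw [← hevC]
    apply key
    rw [← hg, aeval_C]; simp
  have hmul : ∀ α β : 𝓞 K, (m : ZMod p) * ev (g (α * β)) = ev (g α) * ev (g β) := by
    intro α β
    rw [← hevC, ← map_mul, ← map_mul]
    apply key
    rw [map_mul, map_mul, ← hg, ← hg, ← hg, aeval_C]
    have h0 : ((α * β : 𝓞 K) : K) = (α : K) * (β : K) := rfl
    rw [h0]
    simp only [algebraMap_int_eq, eq_intCast]
    ring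
  have hadd : ∀ α β : 𝓞 K, ev (g (α + β)) = ev (g α) + ev (g β) := by
    intro α β
    rw [← map_add]
    apply key
    rw [map_add, ← hg, ← hg, ← hg]
    have h0 : ((α + β : 𝓞 K) : K) = (α : K) + (β : K) := rfl
    rw [h0]
    ring
  have hzero : ev (g 0) = 0 := by
    have := hadd 0 0
    rw [add_zero] at this
    exact left_eq_add.1 this
  refine ⟨⟨⟨⟨fun α => (m : ZMod p)⁻¹ * ev (g α), ?_⟩, ?_⟩, ?_, ?_⟩⟩
  · rw [hone, inv_mul_cancel₀ hm0]
  · intro α β
    simp only
    have h := hmul α β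
    have h2 : ev (g (α * β)) = (m : ZMod p)⁻¹ * (ev (g α) * ev (g β)) := by
      rw [← h, inv_mul_cancel_left₀ hm0]
    rw [h2]; ring
  · simp only
    rw [hzero, mul_zero]
  · intro α β
    simp only
    rw [hadd]; ring

theorem splm : Pool.Agent.Q161.ESF.S_SPLM := by
  intro M _ _ B
  obtain ⟨θ, hint, hgen⟩ := exists_theta M
  obtain ⟨m, hm, hroot⟩ := hom_of_root M θ hint hgen
  obtain ⟨p, n, hp1, hp2, hp3⟩ := schur (minpoly ℤ θ) (minpoly.natDegree_pos hint) (max B m.natAbs)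
  refine ⟨p, (le_max_left _ _).trans_lt hp1, hp2, hroot p hp2 ?_ (n : ZMod p) ?_⟩
  · intro h
    have h1 : p ∣ m.natAbs := Int.natCast_dvd.1 h
    have h2 := Nat.le_of_dvd (Int.natAbs_pos.2 hm) h1
    have h3 : m.natAbs < p := (le_max_right _ _).trans_lt hp1
    omega
  · rw [eval_map, eval₂_at_intCast, Int.cast_id, eq_intCast, ZMod.intCast_zmod_eq_zero_iff_dvd]
    exact hp3

end Pool.Agent.Q68.ESF
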